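import Pool.Agent.Y6.M.Stm

/-! Project EM, job SEQB: choice of the bounds of the other modes. -/

open Set Filter Topology MeasureTheory

set_option autoImplicit false
set_option linter.all false

namespace Pool.Agent.Y261.EM.SEQB

open Pool.Agent.Y6.M

lemma sum_fib {J : Type} (o : J → ℕ) (c : ℕ → ℕ)
    (hc : ∀ m, ∀ s : Finset J, (∀ j ∈ s, o j = m) → s.card ≤ c m) (F : ℕ → ℝ) (G : ℝ)
    (hF : ∀ m, 0 ≤ F m) (hG : 0 ≤ G) (h : ∀ m, (c m : ℝ) * F m ≤ G * (1 / 2) ^ (m + 2))
    (s : Finset J) : ∑ j ∈ s, F (o j) ≤ G := by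
  classical
  rw [Finset.sum_comp F o]
  have h1 : ∑ b ∈ s.image o, (s.filter (fun a => o a = b)).card • F b
      ≤ ∑ b ∈ s.image o, G * (1 / 2) ^ (b + 2) := by
    refine Finset.sum_le_sum fun b _ => ?_
    rw [nsmul_eq_mul]
    refine le_trans ?_ (h b)
    refine mul_le_mul_of_nonneg_right ?_ (hF b)
    exact_mod_cast hc b _ (fun j hj => (Finset.mem_filter.1 hj).2)
  refine h1.trans ?_
  have hs : Summable (fun b : ℕ => G * (1 / 2 : ℝ) ^ (b + 2)) := by
    have := (summable_geometric_two.mul_left (G * (1 / 2) ^ 2))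
    refine this.congr fun b => ?_
    ring
  refine (hs.sum_le_tsum _ (fun b _ => by positivity)).trans ?_
  have h2 : ∑' b : ℕ, G * (1 / 2 : ℝ) ^ (b + 2) = G * (1 / 2) := by
    have h3 : ∀ b : ℕ, G * (1 / 2 : ℝ) ^ (b + 2) = (G * (1 / 2) ^ 2) * (1 / 2) ^ b := by
      intro b; ring
    rw [tsum_congr h3, tsum_mul_left, tsum_geometric_two]
    ring
  rw [h2]
  linarith

theorem seqb0 : ∀ (J : Type) (o : J → ℕ), (∀ m, {j | o j ≤ m}.Finite) → ∀ g : ℕ → ℝ,
    (∀ n, 0 < g n) → ∃ β : ℕ → ℝ, (∀ m, 0 < β m) ∧ (∀ m : ℕ, β m ≤ Real.exp (-(m : ℝ) ^ 2)) ∧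
      Summable (fun j => β (o j)) ∧
      (∀ n : ℕ, Summable (fun j => if n - 1 ≤ o j then β (o j) else 0)) ∧
      ∀ n, ∑' j, (if n - 1 ≤ o j then β (o j) else 0) ≤ g n := by
  classical
  intro J o hfin g hg
  have hf : ∀ m, {j | o j = m}.Finite := fun m =>
    (hfin m).subset (fun j (hj : o j = m) => hj.le)
  set c : ℕ → ℕ := fun m => (hf m).toFinset.card with hcdef
  have hc : ∀ m, ∀ s : Finset J, (∀ j ∈ s, o j = m) → s.card ≤ c m := by
    intro m s hs
    refine Finset.card_le_card fun j hj => ?_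
    simpa using hs j hj
  set h : ℕ → ℝ := fun m => min (Real.exp (-(m : ℝ) ^ 2))
    ((Finset.range (m + 2)).inf' (Finset.nonempty_range_iff.2 (by omega)) g) with hdef
  have hpos : ∀ m, 0 < h m := by
    intro m
    refine lt_min (Real.exp_pos _) ?_
    exact (Finset.lt_inf'_iff _).2 fun i _ => hg i
  have hcp : ∀ m, (0 : ℝ) < (c m : ℝ) + 1 := fun m => by positivity
  set β : ℕ → ℝ := fun m => h m * (1 / 2) ^ (m + 2) / ((c m : ℝ) + 1) with βdef
  have βpos : ∀ m, 0 < β m := fun m => by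
    have := hpos m
    have := hcp m
    positivity
  have βle : ∀ m, (c m : ℝ) * β m ≤ h m * (1 / 2) ^ (m + 2) := by
    intro m
    have h1 := hpos m
    have h2 := hcp m
    rw [βdef]
    simp only
    rw [mul_div_assoc', div_le_iff₀ h2]
    have h3 : 0 ≤ h m * (1 / 2 : ℝ) ^ (m + 2) := by positivity
    nlinarith
  have hbound : ∀ n : ℕ, ∀ s : Finset J,
      ∑ j ∈ s, (if n - 1 ≤ o j then β (o j) else 0) ≤ g n := by
    intro n s
    refine sum_fib o c hc (fun m => if n - 1 ≤ m then β m else 0) (g n) ?_ (hg n).le ?_ s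
    · intro m
      show 0 ≤ (if n - 1 ≤ m then β m else 0)
      split_ifs
      · exact (βpos m).le
      · exact le_rfl
    · intro m
      show (c m : ℝ) * (if n - 1 ≤ m then β m else 0) ≤ g n * (1 / 2) ^ (m + 2)
      split_ifs with hm
      · refine (βle m).trans (mul_le_mul_of_nonneg_right ?_ (by positivity))
        refine (min_le_right _ _).trans ?_
        exact Finset.inf'_le _ (Finset.mem_range.2 (by omega))
      · have := hg n
        rw [mul_zero]
        positivity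
  have hsumm : ∀ n : ℕ, Summable (fun j => if n - 1 ≤ o j then β (o j) else 0) := by
    intro n
    refine summable_of_sum_le (c := g n) ?_ (hbound n)
    intro j
    show 0 ≤ (if n - 1 ≤ o j then β (o j) else 0)
    split_ifs
    · exact (βpos _).le
    · exact le_rfl
  refine ⟨β, βpos, ?_, ?_, hsumm, ?_⟩
  · intro m
    have h1 := hpos m
    have h4 : h m ≤ Real.exp (-(m : ℝ) ^ 2) := min_le_left _ _
    refine le_trans ?_ h4
    rw [βdef]
    simp only
    rw [div_le_iff₀ (hcp m)]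
    have h5 : (1 / 2 : ℝ) ^ (m + 2) ≤ 1 := pow_le_one₀ (by norm_num) (by norm_num)
    have h6 : (0 : ℝ) ≤ c m := Nat.cast_nonneg _
    nlinarith [mul_nonneg h1.le h6]
  · refine (hsumm 0).congr fun j => ?_
    simp
  · intro n
    exact (hsumm n).tsum_le_of_sum_le (hbound n)

theorem t_SEQB : S_SEQB := by
  intro I lv σ hfin g hg
  obtain ⟨β, h1, h2, h3, h4, h5⟩ := seqb0 I lv hfin g hg
  refine ⟨β, h1, h2, ?_, ?_⟩
  · refine Summable.of_nonneg_of_le (fun j => ?_) (fun j => ?_) h3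
    · split_ifs
      · exact le_rfl
      · exact (h1 _).le
    · split_ifs
      · exact (h1 _).le
      · exact le_rfl
  · intro n
    have h0 : ∀ j, 0 ≤ (if σ j ≠ 0 ∧ n - 1 ≤ lv j then β (lv j) else 0) := by
      intro j
      split_ifs
      · exact (h1 _).le
      · exact le_rfl
    have hle : ∀ j, (if σ j ≠ 0 ∧ n - 1 ≤ lv j then β (lv j) else 0) ≤
        (if n - 1 ≤ lv j then β (lv j) else 0) := by
      intro j
      by_cases hj : n - 1 ≤ lv j
      · by_cases hs : σ j ≠ 0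
        · rw [if_pos ⟨hs, hj⟩, if_pos hj]
        · rw [if_neg (fun h => hs h.1), if_pos hj]
          exact (h1 _).le
      · rw [if_neg (fun h => hj h.2), if_neg hj]
    exact ((Summable.of_nonneg_of_le h0 hle (h4 n)).tsum_le_tsum hle (h4 n)).trans (h5 n)

end Pool.Agent.Y261.EM.SEQB
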